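import Pool.Agent.Lib_helper86.SP.SSYT

/-!
The if direction of Stanley's P-partition symmetry conjecture in the form of the frozen
statement S08577: skew shape implies symmetric.
-/

set_option autoImplicit false

namespace Pool.Agent.SP86

theorem card_eq_numSS {P : Type} (lam mu : YoungDiagram) (e : P ≃ ↥(lam.cells \ mu.cells))
    (PP : (P → ℕ) → Prop)
    (h : ∀ f : P → ℕ, PP f ↔
      ((∀ s t : P, (e s).1.1 = (e t).1.1 → (e s).1.2 < (e t).1.2 → f s ≤ f t) ∧
        (∀ s t : P, (e s).1.2 = (e t).1.2 → (e s).1.1 < (e t).1.1 → f s < f t)))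
    (α : ℕ → ℕ) :
    Nat.card {f : P → ℕ // PP f ∧ ∀ i : ℕ, Nat.card {x : P // f x = i} = α i} =
      numSS lam mu α := by
  unfold numSS
  have hcont : ∀ (g : Cells lam mu → ℕ) (i : ℕ),
      Nat.card {x : P // g (e x) = i} = Nat.card {x : Cells lam mu // g x = i} := by
    intro g i
    refine Nat.card_congr (Equiv.subtypeEquiv e ?_)
    intro a
    exact Iff.rfl
  refine (Nat.card_congr ?_).symm
  refine
    { toFun := fun g => ⟨fun x => g.1 (e x), ?_, ?_⟩
      invFun := fun f => ⟨fun y => f.1 (e.symm y), ?_, ?_⟩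
      left_inv := ?_
      right_inv := ?_ }
  · rw [h]
    exact ⟨fun s t h1 h2 => g.2.1.1 (e s) (e t) h1 h2, fun s t h1 h2 => g.2.1.2 (e s) (e t) h1 h2⟩
  · intro i
    rw [hcont]
    exact g.2.2 i
  · have h1 := (h f.1).1 f.2.1
    refine ⟨fun s t hs ht => h1.1 (e.symm s) (e.symm t) ?_ ?_,
      fun s t hs ht => h1.2 (e.symm s) (e.symm t) ?_ ?_⟩
    · rw [e.apply_symm_apply, e.apply_symm_apply]; exact hs
    · rw [e.apply_symm_apply, e.apply_symm_apply]; exact ht
    · rw [e.apply_symm_apply, e.apply_symm_apply]; exact hs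
    · rw [e.apply_symm_apply, e.apply_symm_apply]; exact ht
  · intro i
    rw [← hcont]
    simp only [Equiv.symm_apply_apply]
    exact f.2.2 i
  · intro g
    apply Subtype.ext
    funext y
    simp
  · intro f
    apply Subtype.ext
    funext y
    simp

/-- The if direction of `S08577`. -/
theorem if_dir (P : Type) [Fintype P] [PartialOrder P] (ω : P ≃ Fin (Fintype.card P))
    (h : ∃ (lam mu : YoungDiagram) (e : P ≃ ↥(lam.cells \ mu.cells)), mu ≤ lam ∧
        ∀ f : P → ℕ,
          ((∀ s t : P, s < t → f s ≤ f t) ∧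
            (∀ s t : P, s < t → ω t < ω s → f s < f t)) ↔
          ((∀ s t : P, (e s).1.1 = (e t).1.1 → (e s).1.2 < (e t).1.2 → f s ≤ f t) ∧
            (∀ s t : P, (e s).1.2 = (e t).1.2 → (e s).1.1 < (e t).1.1 → f s < f t))) :
    ∀ (α : ℕ → ℕ) (σ : Equiv.Perm ℕ),
        Nat.card {f : P → ℕ // (∀ s t : P, s < t → f s ≤ f t) ∧
            (∀ s t : P, s < t → ω t < ω s → f s < f t) ∧
            ∀ i : ℕ, Nat.card {x : P // f x = i} = α i}
          = Nat.card {f : P → ℕ // (∀ s t : P, s < t → f s ≤ f t) ∧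
            (∀ s t : P, s < t → ω t < ω s → f s < f t) ∧
            ∀ i : ℕ, Nat.card {x : P // f x = i} = α (σ i)} := by
  obtain ⟨lam, mu, e, hml, hf⟩ := h
  intro α σ
  have h1 := card_eq_numSS lam mu e _ hf α
  have h2 := card_eq_numSS lam mu e _ hf (α ∘ σ)
  simp only [and_assoc, Function.comp] at h1 h2
  rw [h1, h2]
  exact numSS_perm hml σ α

end Pool.Agent.SP86
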