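import Pool.Agent.Lib_helper86.SP.Conn
import Pool.Agent.Lib_helper86.SP.IfDir
import Pool.Agent.ST14.Emb

/-!
Final assembly: the frozen statement S08577 follows from: symmetric implies locally skew.
Also: locally skew is a local condition, so a disjoint union of locally skew posets is locally skew
and a minimal counterexample is connected.
-/

set_option autoImplicit false

namespace Pool.Agent.SP86

open Pool.Agent.ST14

/-- The only-if direction still to be proved. -/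
def SymLocSkew : Prop := ∀ (P : Type) [Fintype P] [PartialOrder P] (ω : P → ℕ),
  Function.Injective ω → Sym ω → LocSkew ω

theorem assemble (H : SymLocSkew) (hE : EMB_Stmt) :
    ∀ (P : Type) [Fintype P] [PartialOrder P] (ω : P ≃ Fin (Fintype.card P)),
      (∀ (α : ℕ → ℕ) (σ : Equiv.Perm ℕ),
        Nat.card {f : P → ℕ // (∀ s t : P, s < t → f s ≤ f t) ∧
            (∀ s t : P, s < t → ω t < ω s → f s < f t) ∧
            ∀ i : ℕ, Nat.card {x : P // f x = i} = α i}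
          = Nat.card {f : P → ℕ // (∀ s t : P, s < t → f s ≤ f t) ∧
            (∀ s t : P, s < t → ω t < ω s → f s < f t) ∧
            ∀ i : ℕ, Nat.card {x : P // f x = i} = α (σ i)})
      ↔
      ∃ (lam mu : YoungDiagram) (e : P ≃ ↥(lam.cells \ mu.cells)), mu ≤ lam ∧
        ∀ f : P → ℕ,
          ((∀ s t : P, s < t → f s ≤ f t) ∧
            (∀ s t : P, s < t → ω t < ω s → f s < f t)) ↔
          ((∀ s t : P, (e s).1.1 = (e t).1.1 → (e s).1.2 < (e t).1.2 → f s ≤ f t) ∧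
            (∀ s t : P, (e s).1.2 = (e t).1.2 → (e s).1.1 < (e t).1.1 → f s < f t)) := by
  intro P _ _ ω
  constructor
  · intro hsym
    set w : P → ℕ := fun x => (ω x : ℕ) with hw
    have hinj : Function.Injective w := fun x y hxy => ω.injective (Fin.ext hxy)
    have hS : Sym w := by
      intro α σ
      have h1 := hsym α σ
      unfold cntN IsPP
      simp only [and_assoc, Function.comp]
      exact h1
    obtain ⟨lam, mu, e, hml, hf⟩ := hE P w hinj (H P w hinj hS)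
    exact ⟨lam, mu, e, hml, hf⟩
  · intro h
    exact if_dir P ω h

section conn
variable {P : Type} [Fintype P] [PartialOrder P]

lemma covBy_sub {p : P → Prop} (hp : ∀ x y, p x → ¬ p y → ¬ x < y ∧ ¬ y < x)
    {x y : P} (hx : p x) (hy : p y) : ((⟨x, hx⟩ : {x // p x}) ⋖ ⟨y, hy⟩) ↔ x ⋖ y := by
  constructor
  · intro h
    refine ⟨h.lt, ?_⟩
    intro c hxc hcy
    by_cases hc : p c
    · exact h.2 (c := ⟨c, hc⟩) hxc hcy
    · exact (hp x c hx hc).1 hxc
  · intro h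
    exact ⟨h.lt, fun c hxc hcy => h.2 hxc hcy⟩

lemma cov_mem {p : P → Prop} (hp : ∀ x y, p x → ¬ p y → ¬ x < y ∧ ¬ y < x)
    {x y : P} (h : x ⋖ y) : p x ↔ p y := by
  constructor
  · intro hx
    by_contra hy
    exact (hp x y hx hy).1 h.lt
  · intro hy
    by_contra hx
    exact (hp y x hy hx).2 h.lt

/-- locally skew on both parts implies locally skew. -/
theorem locSkew_union {ω : P → ℕ} {p : P → Prop} (hp : ∀ x y, p x → ¬ p y → ¬ x < y ∧ ¬ y < x)
    (h1 : LocSkew (fun x : {x // p x} => ω x)) (h2 : LocSkew (fun x : {x // ¬ p x} => ω x)) :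
    LocSkew ω := by
  have hp' : ∀ x y, ¬ p x → ¬ ¬ p y → ¬ x < y ∧ ¬ y < x := by
    intro x y hx hy
    rw [not_not] at hy
    exact ⟨(hp y x hy hx).2, (hp y x hy hx).1⟩
  -- covers in the parts
  have W1 : ∀ {x y : P} (hx : p x) (hy : p y),
      WCov (fun x : {x // p x} => ω x) ⟨x, hx⟩ ⟨y, hy⟩ ↔ WCov ω x y := by
    intro x y hx hy
    unfold WCov
    rw [covBy_sub hp]
  have S1 : ∀ {x y : P} (hx : p x) (hy : p y),
      SCov (fun x : {x // p x} => ω x) ⟨x, hx⟩ ⟨y, hy⟩ ↔ SCov ω x y := by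
    intro x y hx hy
    unfold SCov
    rw [covBy_sub hp]
  have W2 : ∀ {x y : P} (hx : ¬ p x) (hy : ¬ p y),
      WCov (fun x : {x // ¬ p x} => ω x) ⟨x, hx⟩ ⟨y, hy⟩ ↔ WCov ω x y := by
    intro x y hx hy
    unfold WCov
    rw [covBy_sub hp']
  have S2 : ∀ {x y : P} (hx : ¬ p x) (hy : ¬ p y),
      SCov (fun x : {x // ¬ p x} => ω x) ⟨x, hx⟩ ⟨y, hy⟩ ↔ SCov ω x y := by
    intro x y hx hy
    unfold SCov
    rw [covBy_sub hp']
  refine ⟨?_, ?_, ?_, ?_, ?_, ?_⟩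
  · intro x x' y h h'
    by_cases hy : p y
    · have hx := (cov_mem hp h.1).2 hy
      have hx' := (cov_mem hp h'.1).2 hy
      exact congrArg Subtype.val (h1.w_lower ⟨x, hx⟩ ⟨x', hx'⟩ ⟨y, hy⟩ ((W1 hx hy).2 h)
        ((W1 hx' hy).2 h'))
    · have hx : ¬ p x := fun hx => hy ((cov_mem hp h.1).1 hx)
      have hx' : ¬ p x' := fun hx => hy ((cov_mem hp h'.1).1 hx)
      exact congrArg Subtype.val (h2.w_lower ⟨x, hx⟩ ⟨x', hx'⟩ ⟨y, hy⟩ ((W2 hx hy).2 h)
        ((W2 hx' hy).2 h'))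
  · intro x y y' h h'
    by_cases hx : p x
    · have hy := (cov_mem hp h.1).1 hx
      have hy' := (cov_mem hp h'.1).1 hx
      exact congrArg Subtype.val (h1.w_upper ⟨x, hx⟩ ⟨y, hy⟩ ⟨y', hy'⟩ ((W1 hx hy).2 h)
        ((W1 hx hy').2 h'))
    · have hy : ¬ p y := fun hy => hx ((cov_mem hp h.1).2 hy)
      have hy' : ¬ p y' := fun hy => hx ((cov_mem hp h'.1).2 hy)
      exact congrArg Subtype.val (h2.w_upper ⟨x, hx⟩ ⟨y, hy⟩ ⟨y', hy'⟩ ((W2 hx hy).2 h)
        ((W2 hx hy').2 h'))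
  · intro x x' y h h'
    by_cases hy : p y
    · have hx := (cov_mem hp h.1).2 hy
      have hx' := (cov_mem hp h'.1).2 hy
      exact congrArg Subtype.val (h1.s_lower ⟨x, hx⟩ ⟨x', hx'⟩ ⟨y, hy⟩ ((S1 hx hy).2 h)
        ((S1 hx' hy).2 h'))
    · have hx : ¬ p x := fun hx => hy ((cov_mem hp h.1).1 hx)
      have hx' : ¬ p x' := fun hx => hy ((cov_mem hp h'.1).1 hx)
      exact congrArg Subtype.val (h2.s_lower ⟨x, hx⟩ ⟨x', hx'⟩ ⟨y, hy⟩ ((S2 hx hy).2 h)
        ((S2 hx' hy).2 h'))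
  · intro x y y' h h'
    by_cases hx : p x
    · have hy := (cov_mem hp h.1).1 hx
      have hy' := (cov_mem hp h'.1).1 hx
      exact congrArg Subtype.val (h1.s_upper ⟨x, hx⟩ ⟨y, hy⟩ ⟨y', hy'⟩ ((S1 hx hy).2 h)
        ((S1 hx hy').2 h'))
    · have hy : ¬ p y := fun hy => hx ((cov_mem hp h.1).2 hy)
      have hy' : ¬ p y' := fun hy => hx ((cov_mem hp h'.1).2 hy)
      exact congrArg Subtype.val (h2.s_upper ⟨x, hx⟩ ⟨y, hy⟩ ⟨y', hy'⟩ ((S2 hx hy).2 h)
        ((S2 hx hy').2 h'))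
  · intro x b y h h'
    by_cases hx : p x
    · have hb := (cov_mem hp h.1).1 hx
      have hy := (cov_mem hp h'.1).1 hb
      obtain ⟨c, hc1, hc2⟩ := h1.ws ⟨x, hx⟩ ⟨b, hb⟩ ⟨y, hy⟩ ((W1 hx hb).2 h) ((S1 hb hy).2 h')
      exact ⟨c.1, (S1 hx c.2).1 hc1, (W1 c.2 hy).1 hc2⟩
    · have hb : ¬ p b := fun hb => hx ((cov_mem hp h.1).2 hb)
      have hy : ¬ p y := fun hy => hb ((cov_mem hp h'.1).2 hy)
      obtain ⟨c, hc1, hc2⟩ := h2.ws ⟨x, hx⟩ ⟨b, hb⟩ ⟨y, hy⟩ ((W2 hx hb).2 h) ((S2 hb hy).2 h')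
      exact ⟨c.1, (S2 hx c.2).1 hc1, (W2 c.2 hy).1 hc2⟩
  · intro x b y h h'
    by_cases hx : p x
    · have hb := (cov_mem hp h.1).1 hx
      have hy := (cov_mem hp h'.1).1 hb
      obtain ⟨c, hc1, hc2⟩ := h1.sw ⟨x, hx⟩ ⟨b, hb⟩ ⟨y, hy⟩ ((S1 hx hb).2 h) ((W1 hb hy).2 h')
      exact ⟨c.1, (W1 hx c.2).1 hc1, (S1 c.2 hy).1 hc2⟩
    · have hb : ¬ p b := fun hb => hx ((cov_mem hp h.1).2 hb)
      have hy : ¬ p y := fun hy => hb ((cov_mem hp h'.1).2 hy)
      obtain ⟨c, hc1, hc2⟩ := h2.sw ⟨x, hx⟩ ⟨b, hb⟩ ⟨y, hy⟩ ((S2 hx hb).2 h) ((W2 hb hy).2 h')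
      exact ⟨c.1, (W2 hx c.2).1 hc1, (S2 c.2 hy).1 hc2⟩

/-- A minimal counterexample is connected: if all proper parts satisfy the conclusion and `P` is
symmetric and splits, then `P` is locally skew. -/
theorem conn_min {ω : P → ℕ} (hinj : Function.Injective ω) (hsym : Sym ω) {p : P → Prop}
    (hp : ∀ x y, p x → ¬ p y → ¬ x < y ∧ ¬ y < x) (hne : ∃ x, p x) (hne' : ∃ x, ¬ p x)
    (ih : ∀ (Q : Type) [Fintype Q] [PartialOrder Q] (w : Q → ℕ), Fintype.card Q < Fintype.card P →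
      Function.Injective w → Sym w → LocSkew w) : LocSkew ω := by
  classical
  refine locSkew_union hp ?_ ?_
  · refine ih {x // p x} _ ?_ (fun x y hxy => Subtype.ext (hinj hxy)) (conn ω p hp hsym)
    obtain ⟨y, hy⟩ := hne'
    exact Fintype.card_subtype_lt hy
  · have hp' : ∀ x y, ¬ p x → ¬ ¬ p y → ¬ x < y ∧ ¬ y < x := by
      intro x y hx hy
      rw [not_not] at hy
      exact ⟨(hp y x hy hx).2, (hp y x hy hx).1⟩
    refine ih {x // ¬ p x} _ ?_ (fun x y hxy => Subtype.ext (hinj hxy))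
      (conn ω (fun x => ¬ p x) hp' hsym)
    obtain ⟨y, hy⟩ := hne
    exact Fintype.card_subtype_lt (p := fun x => ¬ p x) (x := y) (by simpa using hy)

end conn

end Pool.Agent.SP86
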