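import Mathlib

/-!
A function of contents which is invariant under adjacent transpositions is invariant under
all permutations, on contents of finite support.
-/

set_option autoImplicit false

namespace Pool.Agent.SP86

variable {N : (ℕ → ℕ) → ℕ}

lemma inv_swap (h : ∀ (i : ℕ) (α : ℕ → ℕ), N α = N (α ∘ Equiv.swap i (i+1))) :
    ∀ (d a : ℕ) (α : ℕ → ℕ), N α = N (α ∘ Equiv.swap a (a+d+1)) := by
  intro d
  induction d with
  | zero => intro a α; exact h a α
  | succ d ih =>
    intro a α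
    have e : (Equiv.swap a (a+(d+1)+1) : Equiv.Perm ℕ) =
        Equiv.swap (a+d+1) (a+d+1+1) * Equiv.swap a (a+d+1) * Equiv.swap (a+d+1) (a+d+1+1) := by
      have h1 := Equiv.swap_mul_swap_mul_swap (x := a) (y := a+d+1) (z := a+d+1+1)
        (by omega) (by omega)
      have e1 : a + (d+1) + 1 = a+d+1+1 := by ring
      rw [e1]
      rw [Equiv.swap_comm a (a+d+1+1)]
      rw [← h1]
    have e2 : α ∘ (Equiv.swap a (a+(d+1)+1) : Equiv.Perm ℕ) =
        ((α ∘ (Equiv.swap (a+d+1) (a+d+1+1) : Equiv.Perm ℕ)) ∘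
          (Equiv.swap a (a+d+1) : Equiv.Perm ℕ)) ∘
          (Equiv.swap (a+d+1) (a+d+1+1) : Equiv.Perm ℕ) := by
      rw [e]
      rfl
    rw [e2, ← h, ← ih, ← h]

lemma inv_swap' (h : ∀ (i : ℕ) (α : ℕ → ℕ), N α = N (α ∘ Equiv.swap i (i+1))) (a b : ℕ)
    (α : ℕ → ℕ) : N α = N (α ∘ Equiv.swap a b) := by
  rcases lt_trichotomy a b with hab | hab | hab
  · obtain ⟨d, rfl⟩ := Nat.exists_eq_add_of_lt hab
    exact inv_swap h d a α
  · subst hab
    simp
  · rw [Equiv.swap_comm]
    obtain ⟨d, rfl⟩ := Nat.exists_eq_add_of_lt hab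
    exact inv_swap h d b α

lemma exists_fin_perm (h : ∀ (i : ℕ) (α : ℕ → ℕ), N α = N (α ∘ Equiv.swap i (i+1)))
    (σ : Equiv.Perm ℕ) (S : Finset ℕ) :
    ∃ τ : Equiv.Perm ℕ, (∀ j ∈ S, τ j = σ j) ∧ ∀ α : ℕ → ℕ, N α = N (α ∘ τ) := by
  classical
  induction S using Finset.induction_on with
  | empty => exact ⟨1, by simp, fun α => by simp⟩
  | insert s S hs ih =>
    obtain ⟨τ, h1, h2⟩ := ih
    refine ⟨Equiv.swap (τ s) (σ s) * τ, ?_, ?_⟩
    · intro j hj
      rw [Finset.mem_insert] at hj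
      rcases hj with rfl | hj
      · simp
      · have hne : j ≠ s := by rintro rfl; exact hs hj
        rw [Equiv.Perm.mul_apply, Equiv.swap_apply_of_ne_of_ne]
        · exact h1 j hj
        · exact fun e => hne (τ.injective e)
        · rw [h1 j hj]; exact fun e => hne (σ.injective e)
    · intro α
      have e : α ∘ ((Equiv.swap (τ s) (σ s) * τ : Equiv.Perm ℕ)) =
          (α ∘ (Equiv.swap (τ s) (σ s) : Equiv.Perm ℕ)) ∘ τ := rfl
      rw [e, ← h2, ← inv_swap' h]

theorem inv_perm (h : ∀ (i : ℕ) (α : ℕ → ℕ), N α = N (α ∘ Equiv.swap i (i+1)))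
    (σ : Equiv.Perm ℕ) (α : ℕ → ℕ) (hα : α.support.Finite) : N α = N (α ∘ σ) := by
  classical
  have hS : (σ ⁻¹' α.support).Finite := hα.preimage (σ.injective.injOn)
  obtain ⟨τ, h1, h2⟩ := exists_fin_perm h σ hS.toFinset
  rw [h2 α]
  congr 1
  funext j
  simp only [Function.comp]
  by_cases hj : α (σ j) = 0
  · rw [hj]
    by_contra hne
    -- τ j ∈ supp α ; then τ j = σ j' with j' in the preimage, so τ j' = τ j
    have hm : τ j ∈ α.support := hne
    obtain ⟨j', hj'⟩ := σ.surjective (τ j)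
    have hj'm : j' ∈ hS.toFinset := by
      rw [Set.Finite.mem_toFinset, Set.mem_preimage, hj']
      exact hm
    have := h1 j' hj'm
    rw [hj'] at this
    have := τ.injective this
    rw [this] at hj'
    rw [← hj'] at hm
    exact hm hj
  · have : j ∈ hS.toFinset := by
      rw [Set.Finite.mem_toFinset, Set.mem_preimage]
      exact hj
    rw [h1 j this]

end Pool.Agent.SP86
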