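import Pool.Agent.Lib_helper86.SP.ThreeCyc
import Pool.Agent.Lib_helper86.SP.PermInv
import Pool.Agent.ST14.Defs

/-!
If the generating function of a disjoint union of labelled posets is symmetric, then so are the
generating functions of the parts.
-/

set_option autoImplicit false

open MvPolynomial

namespace Pool.Agent.SP86

open Pool.Agent.ST14

/-- number of `(P, ω)`-partitions of content `β` -/
noncomputable def cntN {P : Type} [PartialOrder P] (ω : P → ℕ) (β : ℕ → ℕ) : ℕ :=
  Nat.card {f : P → ℕ // IsPP ω f ∧ ∀ i : ℕ, Nat.card {x : P // f x = i} = β i}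

/-- the generating function is symmetric -/
def Sym {P : Type} [PartialOrder P] (ω : P → ℕ) : Prop :=
  ∀ (α : ℕ → ℕ) (σ : Equiv.Perm ℕ), cntN ω α = cntN ω (α ∘ σ)

section
variable {P : Type} [Fintype P] [PartialOrder P]

/-- exponent vector of a map to the variables -/
noncomputable def expo {Q : Type} [Fintype Q] {m : ℕ} (f : Q → Fin m) : Fin m →₀ ℕ :=
  ∑ x, Finsupp.single (f x) 1

lemma expo_apply {Q : Type} [Fintype Q] {m : ℕ} (f : Q → Fin m) (i : Fin m) :
    expo f i = Nat.card {x : Q // f x = i} := by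
  classical
  unfold expo
  rw [Finsupp.finset_sum_apply, Nat.card_eq_fintype_card, Fintype.card_subtype,
    Finset.card_filter]
  refine Finset.sum_congr rfl ?_
  intro x _
  rw [Finsupp.single_apply]

open Classical in
/-- generating polynomial in `m` variables -/
noncomputable def KF (ω : P → ℕ) (m : ℕ) : MvPolynomial (Fin m) ℚ :=
  ∑ f ∈ (Finset.univ : Finset (P → Fin m)).filter (fun f => IsPP ω (fun x => (f x : ℕ))),
    monomial (expo f) 1

open Classical in
lemma coeff_KF (ω : P → ℕ) (m : ℕ) (α : Fin m →₀ ℕ) : coeff α (KF ω m) =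
    (((Finset.univ : Finset (P → Fin m)).filter
      (fun f => IsPP ω (fun x => (f x : ℕ)) ∧ expo f = α)).card : ℚ) := by
  unfold KF
  rw [coeff_sum]
  simp only [coeff_monomial]
  rw [Finset.sum_boole, Finset.filter_filter]

/-- the vector of the first `m` values -/
noncomputable def res (m : ℕ) (β : ℕ → ℕ) : Fin m →₀ ℕ :=
  Finsupp.equivFunOnFinite.symm (fun i : Fin m => β i)

lemma res_apply (m : ℕ) (β : ℕ → ℕ) (i : Fin m) : res m β i = β i := rfl

lemma cntN_eq (ω : P → ℕ) (m : ℕ) (β : ℕ → ℕ) (hβ : ∀ i, m ≤ i → β i = 0) :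
    (cntN ω β : ℚ) = coeff (res m β) (KF ω m) := by
  classical
  rw [coeff_KF]
  congr 1
  unfold cntN
  rw [← Fintype.card_subtype, ← Nat.card_eq_fintype_card]
  have hlt : ∀ f : P → ℕ, (∀ i : ℕ, Nat.card {x : P // f x = i} = β i) → ∀ x, f x < m := by
    intro f hf x
    by_contra hc
    push Not at hc
    have h1 := hf (f x)
    rw [hβ _ hc] at h1
    have h2 : Nonempty {y : P // f y = f x} := ⟨⟨x, rfl⟩⟩
    have h3 : 0 < Nat.card {y : P // f y = f x} := Nat.card_pos
    omega
  refine Nat.card_congr ?_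
  refine
    { toFun := fun f => ⟨fun x => ⟨f.1 x, hlt f.1 f.2.2 x⟩, f.2.1, ?_⟩
      invFun := fun f => ⟨fun x => (f.1 x : ℕ), f.2.1, ?_⟩
      left_inv := ?_
      right_inv := ?_ }
  · ext i
    rw [expo_apply, res_apply, ← f.2.2 i]
    refine Nat.card_congr (Equiv.subtypeEquivRight ?_)
    intro x
    rw [Fin.ext_iff]
  · intro i
    by_cases hi : i < m
    · have h1 : expo f.1 ⟨i, hi⟩ = res m β ⟨i, hi⟩ := by rw [f.2.2]
      rw [expo_apply, res_apply] at h1
      rw [← h1]
      refine Nat.card_congr (Equiv.subtypeEquivRight ?_)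
      intro x
      rw [Fin.ext_iff]
    · rw [hβ i (by omega)]
      have : IsEmpty {x : P // (f.1 x : ℕ) = i} := by
        constructor
        rintro ⟨x, hx⟩
        have := (f.1 x).2
        omega
      exact Nat.card_of_isEmpty
  · intro f
    rfl
  · intro f
    rfl

lemma KF_totalDegree_le (ω : P → ℕ) (m : ℕ) : (KF ω m).totalDegree ≤ Fintype.card P := by
  classical
  unfold KF
  refine totalDegree_finsetSum_le ?_
  intro f _
  refine le_trans (totalDegree_monomial_le _ _) ?_
  have : (expo f).degree = Fintype.card P := by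
    unfold expo
    rw [map_sum]
    simp
  exact this.le

lemma KF_ne_zero (ω : P → ℕ) (m : ℕ) (hm : Fintype.card P ≤ m) : KF ω m ≠ 0 := by
  classical
  -- the rank function
  have hlt : ∀ x : P, (Finset.univ.filter (fun y : P => y < x)).card < m := by
    intro x
    refine lt_of_lt_of_le ?_ hm
    rw [← Finset.card_univ]
    refine Finset.card_lt_card ?_
    rw [Finset.ssubset_univ_iff]
    intro h
    have : x ∈ Finset.univ.filter (fun y : P => y < x) := by rw [h]; exact Finset.mem_univ _
    simp at this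
  set f : P → Fin m := fun x => ⟨(Finset.univ.filter (fun y : P => y < x)).card, hlt x⟩ with hf
  have hmono : ∀ s t : P, s < t → (f s : ℕ) < f t := by
    intro s t hst
    show (Finset.univ.filter (fun y : P => y < s)).card <
      (Finset.univ.filter (fun y : P => y < t)).card
    refine Finset.card_lt_card ?_
    rw [Finset.ssubset_iff]
    refine ⟨s, by simp, ?_⟩
    intro y hy
    rw [Finset.mem_insert] at hy
    simp only [Finset.mem_filter, Finset.mem_univ, true_and] at hy ⊢
    rcases hy with rfl | hy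
    · exact hst
    · exact lt_trans hy hst
  intro h0
  have h1 := coeff_KF ω m (expo f)
  rw [h0, coeff_zero] at h1
  have h2 : f ∈ (Finset.univ : Finset (P → Fin m)).filter
      (fun g => IsPP ω (fun x => (g x : ℕ)) ∧ expo g = expo f) := by
    simp only [Finset.mem_filter, Finset.mem_univ, true_and, and_true]
    exact ⟨fun s t hst => (hmono s t hst).le, fun s t hst _ => hmono s t hst⟩
  have h3 : 0 < ((Finset.univ : Finset (P → Fin m)).filter
      (fun g => IsPP ω (fun x => (g x : ℕ)) ∧ expo g = expo f)).card :=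
    Finset.card_pos.2 ⟨f, h2⟩
  have h4 : (((Finset.univ : Finset (P → Fin m)).filter
      (fun g => IsPP ω (fun x => (g x : ℕ)) ∧ expo g = expo f)).card : ℚ) = 0 := h1.symm
  rw [Nat.cast_eq_zero] at h4
  omega

lemma act_KF (ω : P → ℕ) (h : Sym ω) (m : ℕ) (σ : Equiv.Perm (Fin m)) :
    act σ (KF ω m) = KF ω m := by
  classical
  ext α'
  obtain ⟨α, rfl⟩ : ∃ α : Fin m →₀ ℕ, α' = α.mapDomain σ := by
    refine ⟨α'.mapDomain σ.symm, ?_⟩
    rw [← Finsupp.mapDomain_comp]
    have : (σ : Fin m → Fin m) ∘ (σ.symm : Fin m → Fin m) = id := by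
      funext i
      simp
    rw [this, Finsupp.mapDomain_id]
  rw [coeff_act]
  set β : ℕ → ℕ := fun i => if hi : i < m then α ⟨i, hi⟩ else 0 with hβ
  set τ : Equiv.Perm ℕ := (σ⁻¹).extendDomain (Fin.equivSubtype) with hτ
  have hτ1 : ∀ i : Fin m, τ i = (σ⁻¹ i : Fin m) := by
    intro i
    have := Equiv.Perm.extendDomain_apply_subtype (σ⁻¹) (Fin.equivSubtype (n := m)) (b := (i:ℕ)) i.2
    rw [hτ, this]
    simp [Fin.equivSubtype]
  have hτ2 : ∀ i, m ≤ i → τ i = i := by
    intro i hi
    exact Equiv.Perm.extendDomain_apply_not_subtype _ _ (by omega)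
  have h1 : α = res m β := by
    ext i
    rw [res_apply, hβ]
    simp
  have h2 : α.mapDomain σ = res m (β ∘ τ) := by
    ext i
    rw [res_apply, Finsupp.mapDomain_equiv_apply]
    simp only [Function.comp]
    rw [hτ1, hβ]
    simp
  rw [h2, h1, ← cntN_eq, ← cntN_eq, ← h β τ]
  · intro i hi
    simp only [Function.comp]
    rw [hτ2 i hi, hβ]
    simp [hi]
  · intro i hi
    rw [hβ]
    simp [hi]

lemma KF_mul (ω : P → ℕ) (p : P → Prop) [DecidablePred p] (hp : ∀ x y, p x → ¬ p y → ¬ x < y ∧ ¬ y < x) (m : ℕ) :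
    KF ω m = KF (fun x : {x // p x} => ω x) m * KF (fun x : {x // ¬ p x} => ω x) m := by
  classical
  unfold KF
  rw [Finset.sum_mul_sum, ← Finset.sum_product']
  refine Finset.sum_equiv (Equiv.piEquivPiSubtypeProd p (fun _ => Fin m)) ?_ ?_
  · intro f
    simp only [Finset.mem_filter, Finset.mem_univ, true_and, Finset.mem_product]
    constructor
    · rintro ⟨h1, h2⟩
      exact ⟨⟨fun s t hst => h1 s t hst, fun s t hst hw => h2 s t hst hw⟩,
        ⟨fun s t hst => h1 s t hst, fun s t hst hw => h2 s t hst hw⟩⟩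
    · rintro ⟨⟨h1, h2⟩, ⟨h3, h4⟩⟩
      refine ⟨?_, ?_⟩
      · intro s t hst
        by_cases hs : p s
        · by_cases ht : p t
          · exact h1 ⟨s, hs⟩ ⟨t, ht⟩ hst
          · exact absurd hst (hp s t hs ht).1
        · by_cases ht : p t
          · exact absurd hst (hp t s ht hs).2
          · exact h3 ⟨s, hs⟩ ⟨t, ht⟩ hst
      · intro s t hst hw
        by_cases hs : p s
        · by_cases ht : p t
          · exact h2 ⟨s, hs⟩ ⟨t, ht⟩ hst hw
          · exact absurd hst (hp s t hs ht).1
        · by_cases ht : p t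
          · exact absurd hst (hp t s ht hs).2
          · exact h4 ⟨s, hs⟩ ⟨t, ht⟩ hst hw
  · intro f _
    rw [monomial_mul, one_mul]
    congr 1
    unfold expo
    rw [← Fintype.sum_subtype_add_sum_subtype p]
    rfl

lemma cntN_eq_zero (ω : P → ℕ) (β : ℕ → ℕ) (hβ : ¬ β.support.Finite) : cntN ω β = 0 := by
  unfold cntN
  have : IsEmpty {f : P → ℕ // IsPP ω f ∧ ∀ i : ℕ, Nat.card {x : P // f x = i} = β i} := by
    constructor
    rintro ⟨f, _, hf⟩
    apply hβ
    refine (Set.finite_range f).subset ?_
    intro i hi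
    have h1 : β i ≠ 0 := hi
    rw [← hf i] at h1
    have h2 : Nonempty {x : P // f x = i} := by
      by_contra hne
      rw [not_nonempty_iff] at hne
      exact h1 Nat.card_of_isEmpty
    obtain ⟨x, hx⟩ := h2
    exact ⟨x, hx⟩
  exact Nat.card_of_isEmpty

lemma support_comp_finite {β : ℕ → ℕ} (σ : Equiv.Perm ℕ) (h : (β ∘ σ).support.Finite) :
    β.support.Finite := by
  have h1 : β.support = (fun j => σ j) '' (β ∘ σ).support := by
    ext j
    constructor
    · intro hj
      exact ⟨σ.symm j, by simpa [Function.mem_support] using hj, by simp⟩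
    · rintro ⟨i, hi, rfl⟩
      exact hi
  rw [h1]
  exact h.image _

/-- CONN: a part of a symmetric labelled poset that is not comparable to the rest is symmetric. -/
theorem conn (ω : P → ℕ) (p : P → Prop) (hp : ∀ x y, p x → ¬ p y → ¬ x < y ∧ ¬ y < x)
    (h : Sym ω) : Sym (fun x : {x // p x} => ω x) := by
  classical
  set ω1 : {x // p x} → ℕ := fun x => ω x with hω1
  set ω2 : {x // ¬ p x} → ℕ := fun x => ω x with hω2
  -- adjacent swaps
  have hadj : ∀ (i : ℕ) (α : ℕ → ℕ), cntN ω1 α = cntN ω1 (α ∘ Equiv.swap i (i+1)) := by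
    intro i α
    by_cases hα : α.support.Finite
    · obtain ⟨q, hqn, hq⟩ := Nat.exists_infinite_primes (Fintype.card P + 3)
      obtain ⟨M, hM⟩ := hα.bddAbove
      set m := q + M + i + 5 with hm
      have hFne : KF ω m ≠ 0 := KF_ne_zero ω m (by omega)
      have hodd : Odd q := hq.odd_of_ne_two (by omega)
      have hdeg : (KF ω m).totalDegree < q :=
        lt_of_le_of_lt (KF_totalDegree_le ω m) (by omega)
      have hmul := KF_mul ω p hp m
      have hfix : ∀ σ : Equiv.Perm (Fin m), σ ^ q = 1 → act σ (KF ω1 m) = KF ω1 m := by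
        intro σ hσ
        refine fix_of_dvd hFne hq hodd hdeg σ hσ (act_KF ω h m σ) _ ?_
        rw [hmul]
        exact dvd_mul_right _ _
      have hα0 : ∀ j, M < j → α j = 0 := by
        intro j hj
        by_contra hne
        have := hM (show j ∈ α.support from hne)
        omega
      set a : Fin m := ⟨i, by omega⟩ with ha
      set b : Fin m := ⟨i+1, by omega⟩ with hb
      set k : Fin m := ⟨m-2, by omega⟩ with hk
      set l : Fin m := ⟨m-1, by omega⟩ with hl
      have hc := coeff_swap (p := q) (by omega) (by omega) hfix (res m α) (a := a) (b := b)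
        (k := k) (l := l)
        (by rw [ha, hb, Ne, Fin.mk.injEq]; omega)
        (by rw [hk, hl, Ne, Fin.mk.injEq]; omega)
        (by rw [ha, hk, Ne, Fin.mk.injEq]; omega)
        (by rw [hb, hk, Ne, Fin.mk.injEq]; omega)
        (by rw [hb, hl, Ne, Fin.mk.injEq]; omega)
        (by rw [res_apply]; exact hα0 _ (by show M < m-2; omega))
        (by rw [res_apply]; exact hα0 _ (by show M < m-1; omega))
      have hs : (res m α).mapDomain (Equiv.swap a b) = res m (α ∘ Equiv.swap i (i+1)) := by
        ext j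
        rw [Finsupp.mapDomain_equiv_apply, Equiv.symm_swap, res_apply, res_apply]
        simp only [Function.comp]
        congr 1
        by_cases h1 : j = a
        · rw [h1, Equiv.swap_apply_left]
          have : (a : ℕ) = i := rfl
          rw [this, Equiv.swap_apply_left]
        · by_cases h2 : j = b
          · rw [h2, Equiv.swap_apply_right]
            have : (b : ℕ) = i+1 := rfl
            rw [this, Equiv.swap_apply_right]
          · rw [Equiv.swap_apply_of_ne_of_ne h1 h2, Equiv.swap_apply_of_ne_of_ne]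
            · intro h3; exact h1 (Fin.ext h3)
            · intro h3; exact h2 (Fin.ext h3)
      rw [hs] at hc
      have h5 : (cntN ω1 α : ℚ) = (cntN ω1 (α ∘ Equiv.swap i (i+1)) : ℚ) := by
        rw [cntN_eq ω1 m α, cntN_eq ω1 m (α ∘ Equiv.swap i (i+1)), hc]
        · intro j hj
          simp only [Function.comp]
          rw [Equiv.swap_apply_of_ne_of_ne (by omega) (by omega)]
          exact hα0 j (by omega)
        · intro j hj
          exact hα0 j (by omega)
      exact_mod_cast h5
    · rw [cntN_eq_zero ω1 α hα, cntN_eq_zero ω1 (α ∘ Equiv.swap i (i+1))]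
      intro hfin
      exact hα (support_comp_finite _ hfin)
  intro α σ
  by_cases hα : α.support.Finite
  · exact inv_perm (N := cntN ω1) hadj σ α hα
  · rw [cntN_eq_zero ω1 α hα, cntN_eq_zero ω1 (α ∘ σ)]
    intro hfin
    exact hα (support_comp_finite _ hfin)

end

end Pool.Agent.SP86
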