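import Mathlib

/-!
Divisors of a symmetric polynomial of degree `< p` (`p` an odd prime) are fixed by every
permutation `σ` of the variables with `σ ^ p = 1`.
-/

set_option autoImplicit false

open MvPolynomial

namespace Pool.Agent.SP86

variable {m : ℕ}

/-- permutation of the variables -/
noncomputable def act (σ : Equiv.Perm (Fin m)) (d : MvPolynomial (Fin m) ℚ) :
    MvPolynomial (Fin m) ℚ := rename σ d

lemma act_mul (σ τ : Equiv.Perm (Fin m)) (d : MvPolynomial (Fin m) ℚ) :
    act (σ * τ) d = act σ (act τ d) := by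
  unfold act
  rw [rename_rename]
  rfl

lemma act_one (d : MvPolynomial (Fin m) ℚ) : act 1 d = d := by
  unfold act
  exact rename_id_apply d

lemma act_map_mul (σ : Equiv.Perm (Fin m)) (d e : MvPolynomial (Fin m) ℚ) :
    act σ (d * e) = act σ d * act σ e := map_mul _ _ _

lemma act_C (σ : Equiv.Perm (Fin m)) (r : ℚ) : act σ (C r) = C r := rename_C _ _

lemma act_dvd (σ : Equiv.Perm (Fin m)) {d e : MvPolynomial (Fin m) ℚ} (h : d ∣ e) :
    act σ d ∣ act σ e := by
  obtain ⟨c, rfl⟩ := h
  exact ⟨act σ c, act_map_mul σ d c⟩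

lemma act_assoc (σ : Equiv.Perm (Fin m)) {d e : MvPolynomial (Fin m) ℚ} (h : Associated d e) :
    Associated (act σ d) (act σ e) :=
  associated_of_dvd_dvd (act_dvd σ h.dvd) (act_dvd σ h.symm.dvd)

lemma act_prime (σ : Equiv.Perm (Fin m)) {q : MvPolynomial (Fin m) ℚ} (h : Prime q) :
    Prime (act σ q) := by
  have : act σ q = (renameEquiv ℚ σ) q := rfl
  rw [this]
  exact (MulEquiv.prime_iff (renameEquiv ℚ σ)).2 h

lemma prime_totalDegree {q : MvPolynomial (Fin m) ℚ} (h : Prime q) : 1 ≤ q.totalDegree := by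
  by_contra hc
  have h0 : q.totalDegree = 0 := by omega
  rw [totalDegree_eq_zero_iff_eq_C] at h0
  by_cases hr : coeff 0 q = 0
  · rw [hr, C_0] at h0
    exact h.ne_zero h0
  · apply h.not_isUnit
    rw [h0]
    exact (isUnit_iff_ne_zero.2 hr).map C

lemma card_le_totalDegree_prod {ι : Type} (s : Finset ι) (a : ι → MvPolynomial (Fin m) ℚ)
    (h : ∀ i ∈ s, Prime (a i)) : s.card ≤ (∏ i ∈ s, a i).totalDegree := by
  classical
  induction s using Finset.induction_on with
  | empty => simp
  | insert i s hi ih =>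
    rw [Finset.prod_insert hi, Finset.card_insert_of_notMem hi,
      totalDegree_mul_of_isDomain (h i (Finset.mem_insert_self _ _)).ne_zero
        (Finset.prod_ne_zero_iff.2 (fun j hj => (h j (Finset.mem_insert_of_mem hj)).ne_zero))]
    have h1 := prime_totalDegree (h i (Finset.mem_insert_self _ _))
    have h2 := ih (fun j hj => h j (Finset.mem_insert_of_mem hj))
    omega

lemma card_le_of_primes_dvd {ι : Type} (s : Finset ι) (a : ι → MvPolynomial (Fin m) ℚ)
    {F : MvPolynomial (Fin m) ℚ} (hF : F ≠ 0) (h : ∀ i ∈ s, Prime (a i))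
    (hd : ∀ i ∈ s, a i ∣ F) (hne : ∀ i ∈ s, ∀ j ∈ s, i ≠ j → ¬ Associated (a i) (a j)) :
    s.card ≤ F.totalDegree := by
  have h1 : ∏ i ∈ s, a i ∣ F := by
    apply Finset.prod_dvd_of_isRelPrime
    · intro i hi j hj hij
      have hi' : i ∈ s := hi
      have hj' : j ∈ s := hj
      show IsRelPrime (a i) (a j)
      have hii := (h i hi').irreducible
      have hjj := (h j hj').irreducible
      rw [hii.isRelPrime_iff_not_dvd]
      intro hdvd
      exact hne i hi' j hj' hij (hii.associated_of_dvd hjj hdvd)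
    · intro i hi
      exact hd i hi
  obtain ⟨c, hc⟩ := h1
  have hp : ∏ i ∈ s, a i ≠ 0 := Finset.prod_ne_zero_iff.2 (fun j hj => (h j hj).ne_zero)
  have hc0 : c ≠ 0 := by
    rintro rfl
    rw [mul_zero] at hc
    exact hF hc
  rw [hc, totalDegree_mul_of_isDomain hp hc0]
  have := card_le_totalDegree_prod s a h
  omega

lemma fix_prime {F : MvPolynomial (Fin m) ℚ} (hF : F ≠ 0) {p : ℕ} (hp : p.Prime) (hodd : Odd p)
    (hdeg : F.totalDegree < p) (σ : Equiv.Perm (Fin m)) (hσp : σ ^ p = 1) (hσ : act σ F = F)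
    {q : MvPolynomial (Fin m) ℚ} (hq : Prime q) (hqF : q ∣ F) : act σ q = q := by
  have hpow : ∀ k, act (σ ^ k) F = F := by
    intro k
    induction k with
    | zero => rw [pow_zero, act_one]
    | succ k ih => rw [pow_succ', act_mul, ih, hσ]
  have hperiod : ∀ k, act (σ ^ (k % p)) q = act (σ ^ k) q := by
    intro k
    congr 1
    conv_rhs => rw [← Nat.mod_add_div k p]
    rw [pow_add, pow_mul, hσp, one_pow, mul_one]
  have hassoc : Associated q (act σ q) := by
    by_contra hna
    have key : ∀ d, 0 < d → d < p → ¬ Associated q (act (σ ^ d) q) := by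
      intro d hd0 hdp had
      have h1 : ∀ k, Associated q (act (σ ^ (d * k)) q) := by
        intro k
        induction k with
        | zero => rw [mul_zero, pow_zero, act_one]
        | succ k ih =>
          have h2 : act (σ ^ (d * (k+1))) q = act (σ ^ (d * k)) (act (σ ^ d) q) := by
            rw [← act_mul, ← pow_add]
            congr 2
          rw [h2]
          exact ih.trans (act_assoc _ had)
      have hcop : Nat.Coprime d p := by
        rw [Nat.coprime_comm]
        exact (Nat.Prime.coprime_iff_not_dvd hp).2 (fun hdvd => by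
          have := Nat.le_of_dvd hd0 hdvd
          omega)
      obtain ⟨k, hk⟩ := Nat.exists_mul_mod_eq_one_of_coprime hcop hp.one_lt
      have h3 := h1 k
      rw [← hperiod, hk.2, pow_one] at h3
      exact hna h3
    have hcard := card_le_of_primes_dvd (Finset.range p) (fun i => act (σ ^ i) q) hF
      (fun i _ => act_prime _ hq)
      (fun i _ => by
        have := act_dvd (σ ^ i) hqF
        rwa [hpow] at this) ?_
    · rw [Finset.card_range] at hcard
      omega
    · have main : ∀ i j, i < j → j < p → ¬ Associated (act (σ ^ i) q) (act (σ ^ j) q) := by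
        intro i j hij hj hassoc
        apply key (j - i) (by omega) (by omega)
        have h4 := act_assoc ((σ ^ i)⁻¹) hassoc
        rw [← act_mul, ← act_mul, inv_mul_cancel, act_one] at h4
        have h5 : (σ ^ i)⁻¹ * σ ^ j = σ ^ (j - i) := by
          rw [inv_mul_eq_iff_eq_mul, ← pow_add]
          congr 1
          omega
        rwa [h5] at h4
      intro i hi j hj hij hassoc
      rw [Finset.mem_range] at hi hj
      rcases lt_or_gt_of_ne hij with h | h
      · exact main i j h hj hassoc
      · exact main j i h hi hassoc.symm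
  obtain ⟨u, hu⟩ := hassoc
  have hu1 := u.isUnit
  rw [MvPolynomial.isUnit_iff_eq_C_of_isReduced] at hu1
  obtain ⟨r, hr, hur⟩ := hu1
  rw [hur] at hu
  have hk : ∀ k, act (σ ^ k) q = q * C (r ^ k) := by
    intro k
    induction k with
    | zero => rw [pow_zero, act_one, pow_zero, C_1, mul_one]
    | succ k ih =>
      rw [pow_succ', act_mul, ih, act_map_mul, act_C, ← hu, mul_assoc, ← C_mul]
      congr 2
      ring
  have h1 := hk p
  rw [hσp, act_one] at h1
  have h2 : (C (r ^ p) : MvPolynomial (Fin m) ℚ) = C 1 := by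
    have h3 : q * (C (r ^ p) : MvPolynomial (Fin m) ℚ) = q * C 1 := by
      rw [← h1, C_1, mul_one]
    exact mul_left_cancel₀ hq.ne_zero h3
  have h3 : r ^ p = 1 := C_injective _ _ h2
  have h4 : r = 1 := by
    have h5 : r ^ p = (1:ℚ) ^ p := by rw [h3, one_pow]
    exact hodd.strictMono_pow.injective h5
  rw [← hu, h4, C_1, mul_one]

theorem fix_of_dvd {F : MvPolynomial (Fin m) ℚ} (hF : F ≠ 0) {p : ℕ} (hp : p.Prime)
    (hodd : Odd p) (hdeg : F.totalDegree < p) (σ : Equiv.Perm (Fin m)) (hσp : σ ^ p = 1)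
    (hσ : act σ F = F) (d : MvPolynomial (Fin m) ℚ) : d ∣ F → act σ d = d := by
  refine UniqueFactorizationMonoid.induction_on_prime (P := fun d => d ∣ F → act σ d = d) d
    ?_ ?_ ?_
  · intro h0
    rw [zero_dvd_iff] at h0
    exact absurd h0 hF
  · intro x hx _
    rw [MvPolynomial.isUnit_iff_eq_C_of_isReduced] at hx
    obtain ⟨r, _, rfl⟩ := hx
    exact act_C σ r
  · intro a q ha hq ih hdvd
    rw [act_map_mul, ih (dvd_trans (dvd_mul_left a q) hdvd),
      fix_prime hF hp hodd hdeg σ hσp hσ hq (dvd_trans (dvd_mul_right q a) hdvd)]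

end Pool.Agent.SP86
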