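import Pool.Agent.Lib_helper86.SP.SSYT
import Pool.Agent.Lib_helper86.SP.IfDir
import Pool.Agent.ST14.Defs

/-!
Module IF of the blueprint.
-/

set_option autoImplicit false

namespace Pool.Agent.SP86

theorem if_stmt : Pool.Agent.ST14.IF_Stmt := by
  intro P _ lam mu e hml α σ
  have h1 := card_eq_numSS lam mu e (Pool.Agent.ST14.IsSST e) (fun f => Iff.rfl) α
  have h2 := card_eq_numSS lam mu e (Pool.Agent.ST14.IsSST e) (fun f => Iff.rfl) (α ∘ σ)
  simp only [Function.comp] at h2
  rw [h1, h2]
  exact numSS_perm hml σ α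

end Pool.Agent.SP86
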