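import Pool.Agent.Lib_helper86.SP.Toggle
import Pool.Agent.Lib_helper86.SP.PermInv

/-!
Skew semistandard fillings correspond to Gelfand-Tsetlin patterns; the number of skew
semistandard fillings of content `α` is invariant under every permutation of the entries.
-/

set_option autoImplicit false

namespace Pool.Agent.SP86

/-- cells of a skew shape -/
abbrev Cells (lam mu : YoungDiagram) : Type := ↥(lam.cells \ mu.cells)

/-- semistandard filling of a skew shape -/
def SS {lam mu : YoungDiagram} (g : Cells lam mu → ℕ) : Prop :=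
  (∀ s t : Cells lam mu, s.1.1 = t.1.1 → s.1.2 < t.1.2 → g s ≤ g t) ∧
  (∀ s t : Cells lam mu, s.1.2 = t.1.2 → s.1.1 < t.1.1 → g s < g t)

variable {lam mu : YoungDiagram}

lemma mem_cells_iff (c : ℕ × ℕ) : c ∈ lam.cells \ mu.cells ↔
    mu.rowLen c.1 ≤ c.2 ∧ c.2 < lam.rowLen c.1 := by
  obtain ⟨a, b⟩ := c
  rw [Finset.mem_sdiff, YoungDiagram.mem_cells, YoungDiagram.mem_cells,
    YoungDiagram.mem_iff_lt_rowLen, YoungDiagram.mem_iff_lt_rowLen]
  constructor
  · rintro ⟨h1, h2⟩; exact ⟨not_lt.mp h2, h1⟩
  · rintro ⟨h1, h2⟩; exact ⟨h2, not_lt.mpr h1⟩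

/-- the cell `(r,c)` -/
def mkc {r c : ℕ} (h1 : mu.rowLen r ≤ c) (h2 : c < lam.rowLen r) : Cells lam mu :=
  ⟨(r, c), (mem_cells_iff (r, c)).2 ⟨h1, h2⟩⟩

/-- row lengths of the chain of shapes of a filling -/
noncomputable def pat (g : Cells lam mu → ℕ) (k r : ℕ) : ℕ :=
  mu.rowLen r + (Finset.univ.filter (fun x : Cells lam mu => x.1.1 = r ∧ g x < k)).card

lemma rowLen_le (h : mu ≤ lam) (r : ℕ) : mu.rowLen r ≤ lam.rowLen r := by
  by_contra hc
  push Not at hc
  have : (r, lam.rowLen r) ∈ mu := YoungDiagram.mem_iff_lt_rowLen.2 hc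
  have h2 : (r, lam.rowLen r) ∈ lam := h this
  exact lt_irrefl _ (YoungDiagram.mem_iff_lt_rowLen.1 h2)

/-- in a row weakly increasing filling the cells of row `r` with entry `< k` are the first ones -/
lemma lt_pat_iff (hml : mu ≤ lam) {g : Cells lam mu → ℕ}
    (hg : ∀ s t : Cells lam mu, s.1.1 = t.1.1 → s.1.2 < t.1.2 → g s ≤ g t) (k : ℕ)
    (x : Cells lam mu) : g x < k ↔ x.1.2 < pat g k x.1.1 := by
  classical
  set r := x.1.1 with hr
  have hx := (mem_cells_iff x.1).1 x.2
  rw [← hr] at hx
  set S := Finset.univ.filter (fun y : Cells lam mu => y.1.1 = r ∧ g y < k) with hS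
  have hinj : Set.InjOn (fun y : Cells lam mu => y.1.2) (S : Set (Cells lam mu)) := by
    intro a ha b hb hab
    simp only [hS, Finset.coe_filter, Finset.mem_univ, true_and, Set.mem_setOf_eq] at ha hb
    apply Subtype.ext
    exact Prod.ext (ha.1.trans hb.1.symm) hab
  have hcard : (S.image (fun y : Cells lam mu => y.1.2)).card = S.card :=
    Finset.card_image_of_injOn hinj
  constructor
  · intro hk
    -- all cells of row r up to x are in S
    have hsub : Finset.Ico (mu.rowLen r) (x.1.2+1) ⊆ S.image (fun y : Cells lam mu => y.1.2) := by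
      intro c hc
      rw [Finset.mem_Ico] at hc
      have h2 : c < lam.rowLen r := by omega
      rw [Finset.mem_image]
      refine ⟨mkc hc.1 h2, ?_, rfl⟩
      simp only [hS, Finset.mem_filter, Finset.mem_univ, true_and]
      refine ⟨rfl, ?_⟩
      rcases Nat.lt_or_ge c x.1.2 with hlt | hge
      · exact lt_of_le_of_lt (hg (mkc hc.1 h2) x rfl hlt) hk
      · have : mkc hc.1 h2 = x := by
          apply Subtype.ext
          exact Prod.ext rfl (by show c = x.1.2; omega)
        rw [this]; exact hk
    have := Finset.card_le_card hsub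
    rw [Nat.card_Ico, hcard] at this
    show x.1.2 < mu.rowLen r + S.card
    omega
  · intro hlt
    by_contra hk
    -- then all cells of S are strictly before x
    have hsub : S.image (fun y : Cells lam mu => y.1.2) ⊆ Finset.Ico (mu.rowLen r) x.1.2 := by
      intro c hc
      rw [Finset.mem_image] at hc
      obtain ⟨y, hy, rfl⟩ := hc
      simp only [hS, Finset.mem_filter, Finset.mem_univ, true_and] at hy
      rw [Finset.mem_Ico]
      have h1 := (mem_cells_iff y.1).1 y.2
      rw [hy.1] at h1
      refine ⟨h1.1, ?_⟩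
      by_contra hge
      rcases Nat.lt_or_ge x.1.2 y.1.2 with h2 | h2
      · exact hk (lt_of_le_of_lt (hg x y (by rw [← hr, hy.1]) h2) hy.2)
      · have : y = x := by
          apply Subtype.ext
          exact Prod.ext (by rw [hy.1]) (by omega)
        rw [this] at hy
        exact hk hy.2
    have := Finset.card_le_card hsub
    rw [Nat.card_Ico, hcard] at this
    have h3 : x.1.2 < mu.rowLen r + S.card := hlt
    omega

lemma pat_le (hml : mu ≤ lam) (g : Cells lam mu → ℕ) (k r : ℕ) : pat g k r ≤ lam.rowLen r := by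
  classical
  unfold pat
  set S := Finset.univ.filter (fun y : Cells lam mu => y.1.1 = r ∧ g y < k) with hS
  have hinj : Set.InjOn (fun y : Cells lam mu => y.1.2) (S : Set (Cells lam mu)) := by
    intro a ha b hb hab
    simp only [hS, Finset.coe_filter, Finset.mem_univ, true_and, Set.mem_setOf_eq] at ha hb
    apply Subtype.ext
    exact Prod.ext (ha.1.trans hb.1.symm) hab
  have hcard : (S.image (fun y : Cells lam mu => y.1.2)).card = S.card :=
    Finset.card_image_of_injOn hinj
  have hsub : S.image (fun y : Cells lam mu => y.1.2) ⊆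
      Finset.Ico (mu.rowLen r) (lam.rowLen r) := by
    intro c hc
    rw [Finset.mem_image] at hc
    obtain ⟨y, hy, rfl⟩ := hc
    simp only [hS, Finset.mem_filter, Finset.mem_univ, true_and] at hy
    have h1 := (mem_cells_iff y.1).1 y.2
    rw [hy.1] at h1
    rw [Finset.mem_Ico]
    exact h1
  have := Finset.card_le_card hsub
  rw [Nat.card_Ico, hcard] at this
  have := rowLen_le hml r
  omega

lemma le_pat (g : Cells lam mu → ℕ) (k r : ℕ) : mu.rowLen r ≤ pat g k r := by
  unfold pat; omega

lemma pat_GT (hml : mu ≤ lam) {g : Cells lam mu → ℕ} (hg : SS g) :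
    GT mu.rowLen lam.rowLen (pat g) := by
  classical
  refine ⟨?_, ?_, ?_, ?_⟩
  · intro r
    unfold pat
    simp
  · intro k r
    unfold pat
    refine Nat.add_le_add_left (Finset.card_le_card ?_) _
    intro x hx
    simp only [Finset.mem_filter, Finset.mem_univ, true_and] at hx ⊢
    exact ⟨hx.1, by omega⟩
  · intro k r
    by_contra hc
    push Not at hc
    -- the cell (r+1, c) with c = pat k r
    set c := pat g k r with hcdef
    have h1 : mu.rowLen r ≤ c := le_pat g k r
    have h2 : mu.rowLen (r+1) ≤ c := le_trans (mu.rowLen_anti r (r+1) (by omega)) h1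
    have h3 : c < lam.rowLen (r+1) := lt_of_lt_of_le hc (pat_le hml g (k+1) (r+1))
    have h4 : c < lam.rowLen r := lt_of_lt_of_le h3 (lam.rowLen_anti r (r+1) (by omega))
    have h5 : g (mkc h2 h3) < k + 1 := (lt_pat_iff hml hg.1 (k+1) (mkc h2 h3)).2 hc
    have h6 : g (mkc h1 h4) < g (mkc h2 h3) := hg.2 (mkc h1 h4) (mkc h2 h3) rfl (Nat.lt_succ_self r)
    have h7 : c < pat g k r := (lt_pat_iff hml hg.1 k (mkc h1 h4)).1 (by omega)
    omega
  · refine ⟨(Finset.univ.sup g) + 1, ?_⟩
    intro k hk r
    refine le_antisymm (pat_le hml g k r) ?_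
    by_contra hc
    push Not at hc
    have h1 : mu.rowLen r ≤ pat g k r := le_pat g k r
    have h2 : pat g k r < pat g k r := by
      refine (lt_pat_iff hml hg.1 k (mkc h1 hc)).1 ?_
      have : g (mkc h1 hc) ≤ Finset.univ.sup g := Finset.le_sup (Finset.mem_univ _)
      omega
    exact lt_irrefl _ h2

/-- the filling of a pattern -/
noncomputable def fill (lam mu : YoungDiagram) (L : ℕ → ℕ → ℕ) (x : Cells lam mu) : ℕ :=
  sInf {k | x.1.2 < L (k+1) x.1.1}

lemma fill_lt_iff {L : ℕ → ℕ → ℕ} (h : GT mu.rowLen lam.rowLen L) (k : ℕ) (x : Cells lam mu) :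
    fill lam mu L x < k ↔ x.1.2 < L k x.1.1 := by
  have hx := (mem_cells_iff x.1).1 x.2
  have hne : {k | x.1.2 < L (k+1) x.1.1}.Nonempty := by
    obtain ⟨K, hK⟩ := h.hlim
    refine ⟨K, ?_⟩
    show x.1.2 < L (K+1) x.1.1
    rw [hK (K+1) (by omega)]
    exact hx.2
  have hmem := Nat.sInf_mem hne
  constructor
  · intro hk
    have h1 : x.1.2 < L (fill lam mu L x + 1) x.1.1 := hmem
    exact lt_of_lt_of_le h1 (h.mono x.1.1 (by omega : fill lam mu L x + 1 ≤ k))
  · intro hk
    cases k with
    | zero => rw [h.h0] at hk; omega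
    | succ k =>
      have : fill lam mu L x ≤ k := Nat.sInf_le hk
      omega

lemma fill_SS {L : ℕ → ℕ → ℕ} (h : GT mu.rowLen lam.rowLen L) : SS (fill lam mu L) := by
  refine ⟨?_, ?_⟩
  · intro s t h1 h2
    have := (fill_lt_iff h (fill lam mu L t + 1) t).1 (Nat.lt_succ_self _)
    rw [← h1] at this
    have h3 := (fill_lt_iff h (fill lam mu L t + 1) s).2 (lt_trans h2 this)
    omega
  · intro s t h1 h2
    have h3 := (fill_lt_iff h (fill lam mu L t + 1) t).1 (Nat.lt_succ_self _)
    set k := fill lam mu L t with hk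
    have hanti : ∀ r, L k (r+1) ≤ L k r := fun r => le_trans (h.hle k (r+1)) (h.hint k r)
    have hanti' : Antitone (L k) := antitone_nat_of_succ_le hanti
    obtain ⟨d, hd⟩ := Nat.exists_eq_add_of_lt h2
    have h4 : L (k+1) t.1.1 ≤ L k s.1.1 := by
      have e : t.1.1 = (s.1.1 + d) + 1 := by omega
      rw [e]
      exact le_trans (h.hint k (s.1.1+d)) (hanti' (by omega))
    rw [← h1] at h3
    exact (fill_lt_iff h k s).2 (lt_of_lt_of_le h3 h4)

lemma fill_pat (hml : mu ≤ lam) {g : Cells lam mu → ℕ} (hg : SS g) :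
    fill lam mu (pat g) = g := by
  funext x
  have h := pat_GT hml hg
  have key : ∀ k, fill lam mu (pat g) x < k ↔ g x < k := by
    intro k
    rw [fill_lt_iff h, lt_pat_iff hml hg.1]
  have h1 := (key (g x + 1)).2 (by omega)
  have h2 := (key (fill lam mu (pat g) x + 1)).1 (by omega)
  omega

lemma card_row_lt {L : ℕ → ℕ → ℕ} (h : GT mu.rowLen lam.rowLen L) (k r : ℕ) :
    (Finset.univ.filter (fun y : Cells lam mu => y.1.1 = r ∧ fill lam mu L y < k)).card =
      L k r - mu.rowLen r := by
  classical
  set S := Finset.univ.filter (fun y : Cells lam mu => y.1.1 = r ∧ fill lam mu L y < k) with hS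
  have hinj : Set.InjOn (fun y : Cells lam mu => y.1.2) (S : Set (Cells lam mu)) := by
    intro a ha b hb hab
    simp only [hS, Finset.coe_filter, Finset.mem_univ, true_and, Set.mem_setOf_eq] at ha hb
    apply Subtype.ext
    exact Prod.ext (ha.1.trans hb.1.symm) hab
  have hcard : (S.image (fun y : Cells lam mu => y.1.2)).card = S.card :=
    Finset.card_image_of_injOn hinj
  have himg : S.image (fun y : Cells lam mu => y.1.2) = Finset.Ico (mu.rowLen r) (L k r) := by
    ext c
    rw [Finset.mem_image, Finset.mem_Ico]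
    constructor
    · rintro ⟨y, hy, rfl⟩
      simp only [hS, Finset.mem_filter, Finset.mem_univ, true_and] at hy
      have h1 := (mem_cells_iff y.1).1 y.2
      rw [hy.1] at h1
      refine ⟨h1.1, ?_⟩
      have := (fill_lt_iff h k y).1 hy.2
      rwa [hy.1] at this
    · rintro ⟨h1, h2⟩
      have h3 : c < lam.rowLen r := lt_of_lt_of_le h2 (h.le_hi k r)
      refine ⟨mkc h1 h3, ?_, rfl⟩
      simp only [hS, Finset.mem_filter, Finset.mem_univ, true_and]
      exact ⟨rfl, (fill_lt_iff h k (mkc h1 h3)).2 h2⟩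
  rw [← hcard, himg, Nat.card_Ico]

lemma pat_fill {L : ℕ → ℕ → ℕ} (h : GT mu.rowLen lam.rowLen L) : pat (fill lam mu L) = L := by
  funext k r
  unfold pat
  rw [card_row_lt h]
  have := h.lo_le k r
  omega

lemma tot_pat (hml : mu ≤ lam) (g : Cells lam mu → ℕ) (R : ℕ) (hR : lam.rowLen R = 0) (k : ℕ) :
    tot R (pat g) k = (∑ r ∈ Finset.range R, mu.rowLen r) +
      (Finset.univ.filter (fun x : Cells lam mu => g x < k)).card := by
  classical
  unfold tot pat
  rw [Finset.sum_add_distrib]
  congr 1
  rw [Finset.card_eq_sum_card_fiberwise (f := fun x : Cells lam mu => x.1.1)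
    (t := Finset.range R)]
  · refine Finset.sum_congr rfl ?_
    intro r _
    rw [Finset.filter_filter]
    congr 1
    ext x
    simp only [Finset.mem_filter, Finset.mem_univ, true_and]
    tauto
  · intro x _
    rw [Finset.coe_range, Set.mem_Iio]
    by_contra hc
    push Not at hc
    have h1 := (mem_cells_iff x.1).1 x.2
    have h2 := lam.rowLen_anti R x.1.1 hc
    omega

lemma cont_pat_iff (hml : mu ≤ lam) (g : Cells lam mu → ℕ) (R : ℕ) (hR : lam.rowLen R = 0)
    (α : ℕ → ℕ) : Cont R (pat g) α ↔ ∀ i, Nat.card {x : Cells lam mu // g x = i} = α i := by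
  classical
  unfold Cont
  refine forall_congr' ?_
  intro k
  rw [tot_pat hml g R hR, tot_pat hml g R hR]
  have h1 : (Finset.univ.filter (fun x : Cells lam mu => g x < k+1)).card =
      (Finset.univ.filter (fun x : Cells lam mu => g x < k)).card +
        Nat.card {x : Cells lam mu // g x = k} := by
    rw [Nat.card_eq_fintype_card, Fintype.card_subtype]
    rw [← Finset.card_union_of_disjoint]
    · congr 1
      ext x
      simp only [Finset.mem_filter, Finset.mem_univ, true_and, Finset.mem_union]
      omega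
    · rw [Finset.disjoint_left]
      intro x hx hx'
      simp only [Finset.mem_filter, Finset.mem_univ, true_and] at hx hx'
      omega
  rw [h1]
  omega

/-- number of semistandard fillings of content `α` -/
noncomputable def numSS (lam mu : YoungDiagram) (α : ℕ → ℕ) : ℕ :=
  Nat.card {g : Cells lam mu → ℕ // SS g ∧ ∀ i, Nat.card {x : Cells lam mu // g x = i} = α i}

lemma numSS_eq (hml : mu ≤ lam) (R : ℕ) (hR : lam.rowLen R = 0) (α : ℕ → ℕ) :
    numSS lam mu α = num R mu.rowLen lam.rowLen α := by
  unfold numSS num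
  refine Nat.card_congr ?_
  refine
    { toFun := fun g => ⟨pat g.1, pat_GT hml g.2.1, (cont_pat_iff hml g.1 R hR α).2 g.2.2⟩
      invFun := fun L => ⟨fill lam mu L.1, fill_SS L.2.1, ?_⟩
      left_inv := ?_
      right_inv := ?_ }
  · refine (cont_pat_iff hml _ R hR α).1 ?_
    rw [pat_fill L.2.1]
    exact L.2.2
  · intro g
    exact Subtype.ext (fill_pat hml g.2.1)
  · intro L
    exact Subtype.ext (pat_fill L.2.1)

theorem numSS_perm (hml : mu ≤ lam) (σ : Equiv.Perm ℕ) (α : ℕ → ℕ) :
    numSS lam mu α = numSS lam mu (α ∘ σ) := by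
  classical
  by_cases hα : α.support.Finite
  · have hR : lam.rowLen (lam.colLen 0) = 0 := by
      by_contra hc
      have h1 : (lam.colLen 0, 0) ∈ lam := YoungDiagram.mem_iff_lt_rowLen.2 (Nat.pos_of_ne_zero hc)
      have h2 := YoungDiagram.mem_iff_lt_colLen.1 h1
      exact lt_irrefl _ h2
    refine inv_perm ?_ σ α hα
    intro i β
    rw [numSS_eq hml _ hR, numSS_eq hml _ hR]
    exact num_swap_adj _ _ _ hR i β
  · -- both sides vanish
    have hzero : ∀ β : ℕ → ℕ, ¬ β.support.Finite → numSS lam mu β = 0 := by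
      intro β hβ
      unfold numSS
      have : IsEmpty {g : Cells lam mu → ℕ //
          SS g ∧ ∀ i, Nat.card {x : Cells lam mu // g x = i} = β i} := by
        constructor
        rintro ⟨g, _, hg⟩
        apply hβ
        refine (Set.finite_range g).subset ?_
        intro i hi
        have h1 : β i ≠ 0 := hi
        rw [← hg i] at h1
        have h2 : Nonempty {x : Cells lam mu // g x = i} := by
          by_contra hne
          rw [not_nonempty_iff] at hne
          exact h1 Nat.card_of_isEmpty
        obtain ⟨x, hx⟩ := h2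
        exact ⟨x, hx⟩
      exact Nat.card_of_isEmpty
    rw [hzero α hα, hzero (α ∘ σ)]
    intro hfin
    apply hα
    have h1 : α.support = (fun j => σ j) '' (α ∘ σ).support := by
      ext j
      constructor
      · intro hj
        exact ⟨σ.symm j, by simpa [Function.mem_support] using hj, by simp⟩
      · rintro ⟨i, hi, rfl⟩
        exact hi
    rw [h1]
    exact hfin.image _

end Pool.Agent.SP86
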