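import Pool.Agent.Lib_helper86.SP.Factor

/-!
A polynomial fixed by all permutations of order `p` of the variables is fixed by the products
`(a b)(b c)`; and its coefficients are invariant under transpositions if two variables are missing.
-/

set_option autoImplicit false

open MvPolynomial

namespace Pool.Agent.SP86

variable {m : ℕ}

lemma exists_cycle {p : ℕ} (hp : 3 ≤ p) (hpm : p ≤ m) {a b c : Fin m} (hab : a ≠ b)
    (hac : a ≠ c) (hbc : b ≠ c) :
    ∃ σ : Equiv.Perm (Fin m), σ ^ p = 1 ∧ σ a = b ∧ σ b = c := by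
  classical
  have hcard : ((Finset.univ : Finset (Fin m)) \ {a, b, c}).card = m - 3 := by
    rw [Finset.card_sdiff_of_subset (Finset.subset_univ _)]
    rw [Finset.card_univ, Fintype.card_fin]
    congr 1
    rw [Finset.card_eq_three]
    exact ⟨a, b, c, hab, hac, hbc, rfl⟩
  obtain ⟨T, hT, hTc⟩ := Finset.exists_subset_card_eq
    (s := (Finset.univ : Finset (Fin m)) \ {a, b, c}) (n := p - 3) (by rw [hcard]; omega)
  have hTn : ∀ x ∈ T, x ≠ a ∧ x ≠ b ∧ x ≠ c := by
    intro x hx
    have := hT hx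
    simp only [Finset.mem_sdiff, Finset.mem_univ, true_and, Finset.mem_insert,
      Finset.mem_singleton, not_or] at this
    exact this
  set l : List (Fin m) := a :: b :: c :: T.toList with hl
  have hnd : l.Nodup := by
    rw [hl, List.nodup_cons, List.nodup_cons, List.nodup_cons]
    refine ⟨?_, ?_, ?_, T.nodup_toList⟩
    · simp only [List.mem_cons, Finset.mem_toList, not_or]
      exact ⟨hab, hac, fun h => (hTn a h).1 rfl⟩
    · simp only [List.mem_cons, Finset.mem_toList, not_or]
      exact ⟨hbc, fun h => (hTn b h).2.1 rfl⟩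
    · simp only [Finset.mem_toList]
      exact fun h => (hTn c h).2.2 rfl
  have hlen : l.length = p := by
    rw [hl]
    simp only [List.length_cons, Finset.length_toList, hTc]
    omega
  refine ⟨l.formPerm, ?_, ?_, ?_⟩
  · have := List.formPerm_pow_length_eq_one_of_nodup l hnd
    rwa [hlen] at this
  · exact List.formPerm_apply_head a b _ hnd
  · have := List.formPerm_apply_lt_getElem l hnd 1 (by rw [hlen]; omega)
    simpa [hl] using this

/-- stabiliser under the action on the variables, three-cycles -/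
lemma fix_three {p : ℕ} (hp : 3 ≤ p) (hpm : p ≤ m) {f : MvPolynomial (Fin m) ℚ}
    (hf : ∀ σ : Equiv.Perm (Fin m), σ ^ p = 1 → act σ f = f) {a b c : Fin m} (hab : a ≠ b)
    (hac : a ≠ c) (hbc : b ≠ c) : act (Equiv.swap a b * Equiv.swap b c) f = f := by
  obtain ⟨σ, h1, h2, h3⟩ := exists_cycle hp hpm hab hac hbc
  have e1 : (Equiv.swap a b * σ * Equiv.swap a b) ^ p = 1 := by
    have h4 : Equiv.swap a b * σ * Equiv.swap a b =
        Equiv.swap a b * σ * (Equiv.swap a b)⁻¹ := by rw [Equiv.swap_inv]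
    rw [h4, conj_pow, h1, mul_one, mul_inv_cancel]
  have e2 : (σ⁻¹) ^ p = 1 := by rw [inv_pow, h1, inv_one]
  have e3 : Equiv.swap a b * σ * Equiv.swap a b * σ⁻¹ = Equiv.swap a b * Equiv.swap b c := by
    have h5 : σ * Equiv.swap a b * σ⁻¹ = Equiv.swap b c := by
      have := Equiv.swap_apply_apply σ a b
      rw [h2, h3] at this
      rw [this]
    rw [mul_assoc, mul_assoc, ← mul_assoc σ, h5]
  rw [← e3, act_mul, hf _ e2, hf _ e1]

lemma coeff_act (σ : Equiv.Perm (Fin m)) (f : MvPolynomial (Fin m) ℚ) (α : Fin m →₀ ℕ) :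
    coeff (α.mapDomain σ) (act σ f) = coeff α f :=
  coeff_rename_mapDomain σ σ.injective f α

lemma mapDomain_swap_of_zero {k l : Fin m} {α : Fin m →₀ ℕ} (hk : α k = 0) (hl : α l = 0) :
    α.mapDomain (Equiv.swap k l) = α := by
  classical
  ext i
  rw [Finsupp.mapDomain_equiv_apply, Equiv.symm_swap]
  by_cases h1 : i = k
  · subst h1
    rw [Equiv.swap_apply_left, hl, hk]
  · by_cases h2 : i = l
    · subst h2
      rw [Equiv.swap_apply_right, hl, hk]
    · rw [Equiv.swap_apply_of_ne_of_ne h1 h2]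

theorem coeff_swap {p : ℕ} (hp : 3 ≤ p) (hpm : p ≤ m) {f : MvPolynomial (Fin m) ℚ}
    (hf : ∀ σ : Equiv.Perm (Fin m), σ ^ p = 1 → act σ f = f) (α : Fin m →₀ ℕ) {a b k l : Fin m}
    (hab : a ≠ b) (hkl : k ≠ l) (hak : a ≠ k) (hbk : b ≠ k) (hbl : b ≠ l) (hk : α k = 0)
    (hl : α l = 0) : coeff (α.mapDomain (Equiv.swap a b)) f = coeff α f := by
  have h1 : act (Equiv.swap a b * Equiv.swap b k) f = f := fix_three hp hpm hf hab hak hbk
  have h2 : act (Equiv.swap b k * Equiv.swap k l) f = f := fix_three hp hpm hf hbk hbl hkl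
  have h3 : act (Equiv.swap a b * Equiv.swap k l) f = f := by
    have e : Equiv.swap a b * Equiv.swap k l =
        (Equiv.swap a b * Equiv.swap b k) * (Equiv.swap b k * Equiv.swap k l) := by
      rw [mul_assoc, ← mul_assoc (Equiv.swap b k) (Equiv.swap b k), Equiv.swap_mul_self, one_mul]
    rw [e, act_mul, h2, h1]
  have h4 := coeff_act (Equiv.swap a b * Equiv.swap k l) f α
  rw [h3] at h4
  have h5 : α.mapDomain (Equiv.swap a b * Equiv.swap k l : Equiv.Perm (Fin m)) =
      α.mapDomain (Equiv.swap a b) := by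
    have h6 : ((Equiv.swap a b * Equiv.swap k l : Equiv.Perm (Fin m)) : Fin m → Fin m) =
        (Equiv.swap a b : Fin m → Fin m) ∘ (Equiv.swap k l : Fin m → Fin m) := rfl
    rw [h6, Finsupp.mapDomain_comp, mapDomain_swap_of_zero hk hl]
  rw [h5] at h4
  exact h4

end Pool.Agent.SP86
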