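import Mathlib

/-!
Gelfand-Tsetlin patterns with given bottom row and limit row, the toggle at one level
(Bender-Knuth), and the invariance of the number of patterns under swapping two adjacent
content entries.
-/

set_option autoImplicit false

namespace Pool.Agent.SP86

/-- A chain of rows `L 0 = lo`, `L k = hi` for large `k`, consecutive rows interlacing
(each difference is a horizontal strip). -/
structure GT (lo hi : ℕ → ℕ) (L : ℕ → ℕ → ℕ) : Prop where
  h0 : ∀ r, L 0 r = lo r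
  hle : ∀ k r, L k r ≤ L (k+1) r
  hint : ∀ k r, L (k+1) (r+1) ≤ L k r
  hlim : ∃ K, ∀ k, K ≤ k → ∀ r, L k r = hi r

/-- lower bound for row `i+1` given rows `i`, `i+2`. -/
def tlo (L : ℕ → ℕ → ℕ) (i r : ℕ) : ℕ := max (L i r) (L (i+2) (r+1))

/-- upper bound for row `i+1` given rows `i`, `i+2`. -/
def thi (L : ℕ → ℕ → ℕ) (i : ℕ) : ℕ → ℕ
  | 0 => L (i+2) 0
  | r+1 => min (L (i+2) (r+1)) (L i r)

/-- The toggle of row `i+1`. -/
def tog (i : ℕ) (L : ℕ → ℕ → ℕ) : ℕ → ℕ → ℕ :=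
  fun k r => if k = i+1 then tlo L i r + thi L i r - L (i+1) r else L k r

lemma tog_ne {i k : ℕ} (h : k ≠ i+1) (L : ℕ → ℕ → ℕ) (r : ℕ) : tog i L k r = L k r := by
  simp [tog, h]

lemma tog_eq (i : ℕ) (L : ℕ → ℕ → ℕ) (r : ℕ) :
    tog i L (i+1) r = tlo L i r + thi L i r - L (i+1) r := by
  simp [tog]

lemma GT.tlo_le {lo hi : ℕ → ℕ} {L : ℕ → ℕ → ℕ} (h : GT lo hi L) (i r : ℕ) :
    tlo L i r ≤ L (i+1) r := by
  unfold tlo
  exact max_le (h.hle i r) (h.hint (i+1) r)

lemma GT.le_thi {lo hi : ℕ → ℕ} {L : ℕ → ℕ → ℕ} (h : GT lo hi L) (i r : ℕ) :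
    L (i+1) r ≤ thi L i r := by
  cases r with
  | zero => exact h.hle (i+1) 0
  | succ r => exact le_min (h.hle (i+1) (r+1)) (h.hint i r)

lemma thi_le (L : ℕ → ℕ → ℕ) (i r : ℕ) : thi L i r ≤ L (i+2) r := by
  cases r with
  | zero => exact le_rfl
  | succ r => exact min_le_left _ _

lemma GT.tog {lo hi : ℕ → ℕ} {L : ℕ → ℕ → ℕ} (h : GT lo hi L) (i : ℕ) : GT lo hi (tog i L) := by
  have key : ∀ r, tlo L i r ≤ Pool.Agent.SP86.tog i L (i+1) r ∧
      Pool.Agent.SP86.tog i L (i+1) r ≤ thi L i r := by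
    intro r
    have h1 := h.tlo_le i r
    have h2 := h.le_thi i r
    rw [tog_eq]
    omega
  refine ⟨?_, ?_, ?_, ?_⟩
  · intro r
    rw [tog_ne (by omega)]
    exact h.h0 r
  · intro k r
    rcases eq_or_ne k i with rfl | hk
    · rw [tog_ne (by omega)]
      exact le_trans (le_max_left _ _) (key r).1
    · rcases eq_or_ne k (i+1) with rfl | hk2
      · rw [tog_ne (k := i+1+1) (by omega)]
        exact le_trans (key r).2 (thi_le L i r)
      · rw [tog_ne (by omega), tog_ne (by omega)]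
        exact h.hle k r
  · intro k r
    rcases eq_or_ne k i with rfl | hk
    · rw [tog_ne (k := k) (by omega)]
      exact le_trans (key (r+1)).2 (min_le_right _ _)
    · rcases eq_or_ne k (i+1) with rfl | hk2
      · rw [tog_ne (k := i+1+1) (by omega)]
        exact le_trans (le_max_right _ _) (key r).1
      · rw [tog_ne (by omega), tog_ne (by omega)]
        exact h.hint k r
  · obtain ⟨K, hK⟩ := h.hlim
    refine ⟨max K (i+2), ?_⟩
    intro k hk r
    have hk1 : K ≤ k := le_trans (le_max_left _ _) hk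
    have hk2 : i + 2 ≤ k := le_trans (le_max_right _ _) hk
    rw [tog_ne (by omega)]
    exact hK k hk1 r

lemma tlo_tog (L : ℕ → ℕ → ℕ) (i r : ℕ) : tlo (tog i L) i r = tlo L i r := by
  unfold tlo
  rw [tog_ne (by omega), tog_ne (by omega)]

lemma thi_tog (L : ℕ → ℕ → ℕ) (i r : ℕ) : thi (tog i L) i r = thi L i r := by
  cases r with
  | zero => simp only [thi]; rw [tog_ne (by omega)]
  | succ r => simp only [thi]; rw [tog_ne (by omega), tog_ne (by omega)]

lemma GT.tog_tog {lo hi : ℕ → ℕ} {L : ℕ → ℕ → ℕ} (h : GT lo hi L) (i : ℕ) :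
    Pool.Agent.SP86.tog i (Pool.Agent.SP86.tog i L) = L := by
  funext k r
  rcases eq_or_ne k (i+1) with rfl | hk
  · rw [tog_eq, tlo_tog, thi_tog, tog_eq]
    have h1 := h.tlo_le i r
    have h2 := h.le_thi i r
    omega
  · rw [tog_ne hk, tog_ne hk]

/-- total size of the first `R` rows at level `k`. -/
def tot (R : ℕ) (L : ℕ → ℕ → ℕ) (k : ℕ) : ℕ := ∑ r ∈ Finset.range R, L k r

lemma sum_lohi (L : ℕ → ℕ → ℕ) (i n : ℕ) :
    (∑ r ∈ Finset.range n, (tlo L i r + thi L i r)) + thi L i n =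
      (∑ r ∈ Finset.range n, (L i r + L (i+2) r)) + L (i+2) n := by
  induction n with
  | zero => simp [thi]
  | succ n ih =>
    rw [Finset.sum_range_succ, Finset.sum_range_succ]
    have h1 : tlo L i n + thi L i (n+1) = L i n + L (i+2) (n+1) := by
      simp only [tlo, thi]
      omega
    omega

lemma GT.mono {lo hi : ℕ → ℕ} {L : ℕ → ℕ → ℕ} (h : GT lo hi L) (r : ℕ) :
    Monotone (fun k => L k r) := monotone_nat_of_le_succ (fun k => h.hle k r)

lemma GT.le_hi {lo hi : ℕ → ℕ} {L : ℕ → ℕ → ℕ} (h : GT lo hi L) (k r : ℕ) : L k r ≤ hi r := by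
  obtain ⟨K, hK⟩ := h.hlim
  have := h.mono r (le_max_left k K)
  simp only at this
  rwa [hK _ (le_max_right k K) r] at this

lemma GT.lo_le {lo hi : ℕ → ℕ} {L : ℕ → ℕ → ℕ} (h : GT lo hi L) (k r : ℕ) : lo r ≤ L k r := by
  have := h.mono r (Nat.zero_le k)
  simp only at this
  rwa [h.h0 r] at this

lemma GT.tot_tog {lo hi : ℕ → ℕ} {L : ℕ → ℕ → ℕ} (h : GT lo hi L) (i R : ℕ) (hR : hi R = 0) :
    tot R (Pool.Agent.SP86.tog i L) (i+1) + tot R L (i+1) = tot R L i + tot R L (i+2) := by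
  have h1 := sum_lohi L i R
  have h2 : L (i+2) R = 0 := by have := h.le_hi (i+2) R; omega
  have h3 : thi L i R = 0 := by have := thi_le L i R; omega
  rw [h2, h3, add_zero, add_zero] at h1
  unfold tot
  rw [← Finset.sum_add_distrib, ← Finset.sum_add_distrib, ← h1]
  refine Finset.sum_congr rfl ?_
  intro r _
  rw [tog_eq]
  have h4 := h.tlo_le i r
  have h5 := h.le_thi i r
  omega

lemma tot_tog_ne {i k R : ℕ} (hk : k ≠ i+1) (L : ℕ → ℕ → ℕ) :
    tot R (tog i L) k = tot R L k := by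
  unfold tot
  exact Finset.sum_congr rfl (fun r _ => tog_ne hk L r)

/-- The pattern has content `α`. -/
def Cont (R : ℕ) (L : ℕ → ℕ → ℕ) (α : ℕ → ℕ) : Prop := ∀ k, tot R L (k+1) = tot R L k + α k

lemma GT.cont_tog {lo hi : ℕ → ℕ} {L : ℕ → ℕ → ℕ} (h : GT lo hi L) (i R : ℕ) (hR : hi R = 0)
    {α : ℕ → ℕ} (hc : Cont R L α) :
    Cont R (Pool.Agent.SP86.tog i L) (α ∘ Equiv.swap i (i+1)) := by
  intro k
  have ht := h.tot_tog i R hR
  have c1 := hc i
  have c2 := hc (i+1)
  rcases eq_or_ne k i with rfl | hk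
  · have : (α ∘ Equiv.swap k (k+1)) k = α (k+1) := by simp
    rw [this, tot_tog_ne (k := k) (by omega)]
    have e : k + 1 + 1 = k + 2 := rfl
    rw [e] at c2
    omega
  · rcases eq_or_ne k (i+1) with rfl | hk2
    · have : (α ∘ Equiv.swap i (i+1)) (i+1) = α i := by simp
      rw [this, tot_tog_ne (k := i+1+1) (by omega)]
      have e : i + 1 + 1 = i + 2 := rfl
      rw [e] at c2 ⊢
      omega
    · have : (α ∘ Equiv.swap i (i+1)) k = α k := by
        simp only [Function.comp]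
        rw [Equiv.swap_apply_of_ne_of_ne hk hk2]
      rw [this, tot_tog_ne (k := k+1) (by omega), tot_tog_ne (k := k) (by omega)]
      exact hc k

/-- number of patterns of content `α`. -/
noncomputable def num (R : ℕ) (lo hi : ℕ → ℕ) (α : ℕ → ℕ) : ℕ :=
  Nat.card {L : ℕ → ℕ → ℕ // GT lo hi L ∧ Cont R L α}

theorem num_swap_adj (R : ℕ) (lo hi : ℕ → ℕ) (hR : hi R = 0) (i : ℕ) (α : ℕ → ℕ) :
    num R lo hi α = num R lo hi (α ∘ Equiv.swap i (i+1)) := by
  unfold num
  refine Nat.card_congr ?_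
  refine
    { toFun := fun L => ⟨tog i L.1, L.2.1.tog i, L.2.1.cont_tog i R hR L.2.2⟩
      invFun := fun L => ⟨tog i L.1, L.2.1.tog i, ?_⟩
      left_inv := ?_
      right_inv := ?_ }
  · have := L.2.1.cont_tog i R hR L.2.2
    have e : (α ∘ Equiv.swap i (i+1)) ∘ Equiv.swap i (i+1) = α := by
      funext k
      simp [Function.comp]
    rwa [e] at this
  · intro L
    exact Subtype.ext (L.2.1.tog_tog i)
  · intro L
    exact Subtype.ext (L.2.1.tog_tog i)

end Pool.Agent.SP86
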